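import Pool.Agent.H444.MH.Stm

set_option autoImplicit false

/-! Project MH (helper444), parts FAR and ONE (helper860). -/

namespace Pool.Agent.H860.MH

open Filter Topology MeasureTheory Complex
open Pool.Agent.Q97.UM Pool.Agent.H444.MH

noncomputable section

/-- one term of `SS` -/
def gg (δ T : ℝ) (s : ℂ) (u : ℝ) : ℝ := (mz s : ℝ) *
  (Real.exp (2 * δ * (Real.log T * |s.re - 1 / 2|)) / (1 + Real.log T * |s.im - u|) ^ 2)

theorem ss_eq (δ T u : ℝ) : SS δ T u = ∑ s ∈ ZD T, gg δ T s u := rfl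

theorem gg_nonneg (δ T : ℝ) (s : ℂ) (u : ℝ) : 0 ≤ gg δ T s u := by
  unfold gg
  positivity

theorem gg_ge {δ T : ℝ} (hL : 0 ≤ Real.log T) (hδ : 0 ≤ δ) {s : ℂ} {u : ℝ}
    (h : Real.log T * |s.im - u| ≤ 1 / 2) : (mz s : ℝ) * (4 / 9) ≤ gg δ T s u := by
  unfold gg
  refine mul_le_mul_of_nonneg_left ?_ (Nat.cast_nonneg _)
  have h0 : 0 ≤ Real.log T * |s.im - u| := mul_nonneg hL (abs_nonneg _)
  have h1 : 1 ≤ Real.exp (2 * δ * (Real.log T * |s.re - 1 / 2|)) := by
    apply Real.one_le_exp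
    positivity
  rw [div_le_div_iff₀ (by norm_num) (by positivity)]
  nlinarith

theorem ss_nonneg (δ T t : ℝ) : 0 ≤ SS δ T t := by
  rw [ss_eq]
  exact Finset.sum_nonneg fun s _ => gg_nonneg δ T s t

theorem ss_cont {T : ℝ} (hL : 0 ≤ Real.log T) (δ : ℝ) : Continuous (SS δ T) := by
  have e : SS δ T = fun t => ∑ s ∈ ZD T, gg δ T s t := rfl
  rw [e]
  refine continuous_finsetSum _ fun s _ => ?_
  unfold gg
  refine continuous_const.mul (Continuous.div continuous_const (by fun_prop) fun t => ?_)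
  have h0 : 0 ≤ Real.log T * |s.im - t| := mul_nonneg hL (abs_nonneg _)
  positivity

theorem sl_nonneg (T t : ℝ) : 0 ≤ SL T t := by
  unfold SL
  exact Finset.sum_nonneg fun s _ => mul_nonneg (Nat.cast_nonneg _) (le_max_left _ _)

theorem sl_meas (T : ℝ) : Measurable (SL T) := by
  have e : SL T = fun t : ℝ => ∑ s ∈ ZD T, (mz s : ℝ) *
    max 0 (Real.log (1 / (Real.log T * ‖s - (1 / 2 + t * I)‖))) := rfl
  rw [e]
  refine Finset.measurable_sum _ fun s _ => ?_
  refine measurable_const.mul (measurable_const.max (Real.measurable_log.comp ?_))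
  refine measurable_const.div (measurable_const.mul ?_)
  exact (Continuous.norm (by fun_prop)).measurable

theorem restr {f : ℝ → ℝ} {a b c d : ℝ} (h0 : ∀ t, 0 ≤ f t) (hca : c ≤ a) (hab : a ≤ b)
    (hbd : b ≤ d) (hf : IntervalIntegrable f volume c d) :
    ∫ t in a..b, f t ≤ ∫ t in c..d, f t :=
  intervalIntegral.integral_mono_interval hca hab hbd (Eventually.of_forall h0) hf

theorem big : ∀ᶠ T : ℝ in atTop, 16 ≤ T ∧ 1 ≤ Real.log T ∧ Real.log T ≤ T / 8 := by
  have h1 := Real.isLittleO_log_id_atTop.bound (c := 1 / 8) (by norm_num)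
  filter_upwards [eventually_ge_atTop (16 : ℝ), Real.tendsto_log_atTop.eventually_ge_atTop 1, h1]
    with T hT hL h
  refine ⟨hT, hL, ?_⟩
  rw [Real.norm_eq_abs, Real.norm_eq_abs, id, abs_of_nonneg (by linarith),
    abs_of_nonneg (by linarith)] at h
  linarith

theorem dp_cont (N : ℕ) (b : ℕ → ℂ) : Continuous (dp N b) :=
  (Pool.Agent.Q84.UM.t_DPM.2.2 N b 0).2

theorem t_ONE : S_ONE := by
  obtain ⟨θ, c, C, hθ, hθ1, hc, hC, h⟩ := b_TAIL
  obtain ⟨C₁, hC₁, h₁⟩ := b_STM θ c C hθ hθ1 hc hC h 1 (c / 32) (by positivity) (by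
    push_cast
    linarith)
  obtain ⟨C₂, hC₂, h₂⟩ := b_SNG (θ / 2) (c / 32) 1 C₁ (by positivity) (by linarith)
    (by positivity) le_rfl hC₁ h₁
  refine ⟨c / 32, C₁ + C₂, by positivity, by positivity, min (θ / 2) (1 / 40), ?_, min_le_right _ _,
    ?_⟩
  · exact lt_min (by positivity) (by norm_num)
  filter_upwards [h₁, h₂, big] with T h₁ h₂ hT
  obtain ⟨hT, hL, hLT⟩ := hT
  have hL0 : 0 ≤ Real.log T := by linarith
  refine ⟨fun t => add_nonneg (ss_nonneg _ _ _) (sl_nonneg _ _),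
    (ss_cont hL0 _).measurable.add (sl_meas T), ?_⟩
  intro N hN b
  have hN' : (N : ℝ) ≤ T ^ (θ / 2) :=
    hN.trans (Real.rpow_le_rpow_of_exponent_le (by linarith) (min_le_left _ _))
  have h₁ := h₁ N hN' b
  obtain ⟨h₂i, h₂⟩ := h₂ N hN' b
  simp only [pow_one] at h₁ h₂i h₂
  have hdc := dp_cont N b
  have hsc := ss_cont hL0 (c / 32)
  have hc1 : Continuous fun t => SS (c / 32) T t * ‖dp N b t‖ ^ 2 := by fun_prop
  have i1 : ∀ x y, IntervalIntegrable (fun t => SS (c / 32) T t * ‖dp N b t‖ ^ 2) volume x y :=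
    fun x y => hc1.intervalIntegrable x y
  have i2 : IntervalIntegrable (fun t => SL T t * ‖dp N b t‖ ^ 2) volume (T + 2 * Real.log T)
      (2 * T - 2 * Real.log T) := by
    refine h₂i.mono_set ?_
    rw [Set.uIcc_of_le (by linarith), Set.uIcc_of_le (by linarith)]
    exact Set.Icc_subset_Icc (by linarith) (by linarith)
  have e : (fun t => (SS (c / 32) T t + SL T t) * ‖dp N b t‖ ^ 2) =
      fun t => SS (c / 32) T t * ‖dp N b t‖ ^ 2 + SL T t * ‖dp N b t‖ ^ 2 := by
    funext t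
    ring
  simp only [e]
  refine ⟨(i1 _ _).add i2, ?_⟩
  rw [intervalIntegral.integral_add (i1 _ _) i2]
  have b1 := restr (f := fun t => SS (c / 32) T t * ‖dp N b t‖ ^ 2) (a := T + 2 * Real.log T)
    (b := 2 * T - 2 * Real.log T) (c := T / 4) (d := 8 * T)
    (fun t => mul_nonneg (ss_nonneg _ _ _) (by positivity)) (by linarith) (by linarith)
    (by linarith) (i1 _ _)
  have b2 := restr (f := fun t => SL T t * ‖dp N b t‖ ^ 2) (a := T + 2 * Real.log T)
    (b := 2 * T - 2 * Real.log T) (c := T / 2) (d := 4 * T)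
    (fun t => mul_nonneg (sl_nonneg _ _) (by positivity)) (by linarith) (by linarith)
    (by linarith) h₂i
  calc _ ≤ C₁ * T * N2 N b + C₂ * T * N2 N b := add_le_add (b1.trans h₁) (b2.trans h₂)
    _ = (C₁ + C₂) * T * N2 N b := by ring

/-- the set of the distances -/
def AA (T M : ℝ) : Finset ℕ := by
  classical exact (Finset.Icc 1 (⌈Real.log T⌉₊ + 1)).filter (fun n : ℕ => M / 2 ≤ n)

theorem mem_AA {T M : ℝ} {n : ℕ} : n ∈ AA T M ↔ (1 ≤ n ∧ n ≤ ⌈Real.log T⌉₊ + 1) ∧ M / 2 ≤ n := by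
  unfold AA
  rw [Finset.mem_filter, Finset.mem_Icc]

theorem sum_AA {T M : ℝ} (hM : 1 ≤ M) : ∑ n ∈ AA T M, 1 / (n : ℝ) ^ 2 ≤ 4 / M := by
  obtain ⟨k, hk⟩ : ∃ k : ℕ, k + 1 = ⌈M / 2⌉₊ := by
    have : 0 < ⌈M / 2⌉₊ := Nat.ceil_pos.2 (by linarith)
    exact ⟨⌈M / 2⌉₊ - 1, by omega⟩
  have hk' : M / 2 ≤ (k : ℝ) + 1 := by
    have := Nat.le_ceil (M / 2)
    rw [← hk] at this
    exact_mod_cast this
  have h1 : AA T M ⊆ Finset.Ioo k (⌈Real.log T⌉₊ + 2) := by
    intro n hn
    rw [mem_AA] at hn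
    rw [Finset.mem_Ioo]
    have h2 : ⌈M / 2⌉₊ ≤ n := Nat.ceil_le.2 hn.2
    omega
  have h2 : ∑ n ∈ AA T M, 1 / (n : ℝ) ^ 2 ≤
      ∑ n ∈ Finset.Ioo k (⌈Real.log T⌉₊ + 2), ((n : ℝ) ^ 2)⁻¹ := by
    refine (Finset.sum_le_sum_of_subset_of_nonneg h1 fun i _ _ => by positivity).trans
      (le_of_eq ?_)
    exact Finset.sum_congr rfl fun i _ => one_div _
  refine h2.trans ((sum_Ioo_inv_sq_le _ _).trans ?_)
  rw [div_le_div_iff₀ (by positivity) (by positivity)]
  linarith

theorem far_le {T M δ : ℝ} (hL : 1 ≤ Real.log T) (hM : 1 ≤ M) (hδ : 0 ≤ δ) (t : ℝ) :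
    far M T t ≤ ∑ n ∈ AA T M, 6 * (1 / (n : ℝ) ^ 2) *
      (SS δ T (t + n / Real.log T) + SS δ T (t - n / Real.log T)) := by
  classical
  have hL0 : 0 < Real.log T := by linarith
  have e : ∑ n ∈ AA T M, 6 * (1 / (n : ℝ) ^ 2) *
      (SS δ T (t + n / Real.log T) + SS δ T (t - n / Real.log T)) =
      ∑ s ∈ ZD T, ∑ n ∈ AA T M, 6 * (1 / (n : ℝ) ^ 2) *
        (gg δ T s (t + n / Real.log T) + gg δ T s (t - n / Real.log T)) := by
    rw [Finset.sum_comm]
    refine Finset.sum_congr rfl fun n _ => ?_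
    rw [ss_eq, ss_eq, ← Finset.sum_add_distrib, Finset.mul_sum]
  rw [e]
  unfold far
  have hnn : ∀ s : ℂ, ∀ n : ℕ, 0 ≤ 6 * (1 / (n : ℝ) ^ 2) *
      (gg δ T s (t + n / Real.log T) + gg δ T s (t - n / Real.log T)) := by
    intro s n
    have := gg_nonneg δ T s (t + n / Real.log T)
    have := gg_nonneg δ T s (t - n / Real.log T)
    positivity
  refine le_trans ?_ (Finset.sum_le_sum_of_subset_of_nonneg
    (Finset.filter_subset (fun s : ℂ => |s.im - t| ≤ 1 ∧ M / Real.log T < |s.im - t|) (ZD T))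
    fun s _ _ => Finset.sum_nonneg fun n _ => hnn s n)
  refine Finset.sum_le_sum fun s hs => ?_
  rw [Finset.mem_filter] at hs
  obtain ⟨-, hs1, hs2⟩ := hs
  obtain ⟨y, hy⟩ : ∃ y, y = Real.log T * (s.im - t) := ⟨_, rfl⟩
  rw [← hy]
  have hya : |y| = Real.log T * |s.im - t| := by rw [hy, abs_mul, abs_of_pos hL0]
  have hy1 : |y| ≤ Real.log T := by rw [hya]; nlinarith
  have hy2 : M < |y| := by
    rw [hya, mul_comm]
    rwa [div_lt_iff₀ hL0] at hs2
  obtain ⟨n, hn⟩ : ∃ n : ℕ, n = ⌊|y| + 1 / 2⌋₊ := ⟨_, rfl⟩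
  have hn1 : (n : ℝ) ≤ |y| + 1 / 2 := by
    rw [hn]
    exact Nat.floor_le (by positivity)
  have hn2 : |y| + 1 / 2 < n + 1 := by
    rw [hn]
    exact Nat.lt_floor_add_one _
  have hn3 : (1 : ℝ) ≤ n := by
    have h3 : (0 : ℝ) < n := by linarith
    exact_mod_cast h3
  have hmem : n ∈ AA T M := by
    rw [mem_AA]
    refine ⟨⟨by exact_mod_cast hn3, ?_⟩, by linarith⟩
    have h4 := Nat.le_ceil (Real.log T)
    have h5 : (n : ℝ) < (⌈Real.log T⌉₊ : ℝ) + 1 + 1 := by linarith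
    have h6 : n < ⌈Real.log T⌉₊ + 1 + 1 := by exact_mod_cast h5
    omega
  refine le_trans ?_ (Finset.single_le_sum (f := fun n : ℕ => 6 * (1 / (n : ℝ) ^ 2) *
      (gg δ T s (t + n / Real.log T) + gg δ T s (t - n / Real.log T)))
      (fun n _ => hnn s n) hmem)
  have hm : (0 : ℝ) ≤ mz s := Nat.cast_nonneg _
  have hsum : (mz s : ℝ) * (4 / 9) ≤ gg δ T s (t + n / Real.log T) +
      gg δ T s (t - n / Real.log T) := by
    rcases le_total 0 y with h0 | h0
    · have h1 : Real.log T * |s.im - (t + n / Real.log T)| ≤ 1 / 2 := by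
        have : Real.log T * |s.im - (t + n / Real.log T)| = |y - n| := by
          rw [← abs_of_pos hL0, ← abs_mul, abs_of_pos hL0, hy]
          congr 1
          field_simp
          ring
        rw [this, abs_le]
        rw [abs_of_nonneg h0] at hn1 hn2
        constructor <;> linarith
      have := gg_ge hL0.le hδ h1
      have := gg_nonneg δ T s (t - n / Real.log T)
      linarith
    · have h1 : Real.log T * |s.im - (t - n / Real.log T)| ≤ 1 / 2 := by
        have : Real.log T * |s.im - (t - n / Real.log T)| = |y + n| := by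
          rw [← abs_of_pos hL0, ← abs_mul, abs_of_pos hL0, hy]
          congr 1
          field_simp
          ring
        rw [this, abs_le]
        rw [abs_of_nonpos h0] at hn1 hn2
        constructor <;> linarith
      have := gg_ge hL0.le hδ h1
      have := gg_nonneg δ T s (t + n / Real.log T)
      linarith
  have hn0 : (0 : ℝ) < n := by linarith
  have hy0 : 0 < |y| := by linarith
  have hinv : 1 / y ^ 2 ≤ 9 / 4 * (1 / (n : ℝ) ^ 2) := by
    rw [← sq_abs y, mul_one_div, div_le_div_iff₀ (by positivity) (by positivity)]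
    nlinarith
  calc (mz s : ℝ) * (1 / y ^ 2) ≤ mz s * (9 / 4 * (1 / (n : ℝ) ^ 2)) :=
        mul_le_mul_of_nonneg_left hinv hm
    _ ≤ 6 * (1 / (n : ℝ) ^ 2) * (mz s * (4 / 9)) := by
        have : 0 ≤ (mz s : ℝ) * (1 / (n : ℝ) ^ 2) := by positivity
        nlinarith
    _ ≤ _ := mul_le_mul_of_nonneg_left hsum (by positivity)

theorem far_nonneg (M T t : ℝ) : 0 ≤ far M T t := by
  unfold far
  refine Finset.sum_nonneg fun s _ => ?_
  positivity

theorem far_meas (M T : ℝ) : Measurable (far M T) := by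
  classical
  have e : far M T = fun t => ∑ s ∈ ZD T, if |s.im - t| ≤ 1 ∧ M / Real.log T < |s.im - t| then
      (mz s : ℝ) * (1 / (Real.log T * (s.im - t)) ^ 2) else 0 := by
    funext t
    unfold far
    rw [Finset.sum_filter]
  rw [e]
  refine Finset.measurable_sum _ fun s _ => ?_
  refine Measurable.ite ?_ ?_ measurable_const
  · have h1 : MeasurableSet {t : ℝ | |s.im - t| ≤ 1} :=
      (isClosed_le (by fun_prop) continuous_const).measurableSet
    have h2 : MeasurableSet {t : ℝ | M / Real.log T < |s.im - t|} :=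
      (isOpen_lt continuous_const (by fun_prop)).measurableSet
    exact h1.inter h2
  · exact measurable_const.mul (measurable_const.div (by fun_prop))

theorem shift {δ T C : ℝ} {N : ℕ} (hL : 0 ≤ Real.log T)
    (h : ∀ b : ℕ → ℂ, ∫ t in (T / 4)..(8 * T), SS δ T t * ‖dp N b t‖ ^ 2 ≤ C * T * N2 N b)
    (b : ℕ → ℂ) {x y z : ℝ} (h1 : T / 4 ≤ x + z) (h2 : x ≤ y) (h3 : y + z ≤ 8 * T) :
    ∫ t in x..y, SS δ T (t + z) * ‖dp N b t‖ ^ 2 ≤ C * T * N2 N b := by
  have e1 : ∫ t in x..y, SS δ T (t + z) * ‖dp N b t‖ ^ 2 =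
      ∫ t in (x + z)..(y + z), SS δ T t * ‖dp N b (t - z)‖ ^ 2 := by
    rw [← intervalIntegral.integral_comp_add_right
      (fun t => SS δ T t * ‖dp N b (t - z)‖ ^ 2) z]
    refine intervalIntegral.integral_congr fun t _ => ?_
    simp only [add_sub_cancel_right]
  have e2 : ∀ t, dp N b (t - z) = dp N (fun n => b n * (n : ℂ) ^ (z * I)) t := fun t =>
    (Pool.Agent.Q84.UM.t_DPM.2.1 N b t z).1
  rw [e1]
  simp only [e2]
  rw [← (Pool.Agent.Q84.UM.t_DPM.2.1 N b 0 z).2]
  refine le_trans ?_ (h _)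
  have hdc := dp_cont N (fun n => b n * (n : ℂ) ^ (z * I))
  have hsc := ss_cont hL δ
  have hc1 : Continuous fun t => SS δ T t *
      ‖dp N (fun n => b n * (n : ℂ) ^ (z * I)) t‖ ^ 2 := by fun_prop
  exact restr (fun t => mul_nonneg (ss_nonneg _ _ _) (by positivity)) h1 (by linarith) h3
    (hc1.intervalIntegrable _ _)

theorem t_FAR : S_FAR := by
  obtain ⟨θ, c, C, hθ, hθ1, hc, hC, h⟩ := b_TAIL
  obtain ⟨C₁, hC₁, h₁⟩ := b_STM θ c C hθ hθ1 hc hC h 1 (c / 32) (by positivity) (by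
    push_cast
    linarith)
  refine ⟨48 * C₁, by positivity, fun M hM => ⟨min (θ / 2) (1 / 40), ?_, min_le_right _ _, ?_⟩⟩
  · exact lt_min (by positivity) (by norm_num)
  filter_upwards [h₁, big] with T h₁ hT
  obtain ⟨hT, hL, hLT⟩ := hT
  have hL0 : 0 ≤ Real.log T := by linarith
  have hLp : 0 < Real.log T := by linarith
  refine ⟨fun t => far_nonneg M T t, far_meas M T, ?_⟩
  intro N hN b
  have hN' : (N : ℝ) ≤ T ^ (θ / 2) :=
    hN.trans (Real.rpow_le_rpow_of_exponent_le (by linarith) (min_le_left _ _))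
  have h₁ := h₁ N hN'
  simp only [pow_one] at h₁
  have hdc := dp_cont N b
  have hsc := ss_cont hL0 (c / 32)
  obtain ⟨G, hG⟩ : ∃ G : ℝ → ℝ, G = fun t => (∑ n ∈ AA T M, 6 * (1 / (n : ℝ) ^ 2) *
      (SS (c / 32) T (t + n / Real.log T) + SS (c / 32) T (t - n / Real.log T))) *
      ‖dp N b t‖ ^ 2 := ⟨_, rfl⟩
  have hGc : Continuous G := by
    rw [hG]
    refine Continuous.mul (continuous_finsetSum _ fun n _ => ?_) (by fun_prop)
    fun_prop
  have hle : ∀ t, far M T t * ‖dp N b t‖ ^ 2 ≤ G t := by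
    intro t
    rw [hG]
    exact mul_le_mul_of_nonneg_right (far_le hL hM (by positivity) t) (by positivity)
  have hfm : Measurable fun t => far M T t * ‖dp N b t‖ ^ 2 :=
    (far_meas M T).mul (by fun_prop)
  have i1 : IntervalIntegrable (fun t => far M T t * ‖dp N b t‖ ^ 2) volume
      (T + 2 * Real.log T) (2 * T - 2 * Real.log T) := by
    refine IntervalIntegrable.mono_fun (hGc.intervalIntegrable _ _) hfm.aestronglyMeasurable ?_
    refine Eventually.of_forall fun t => ?_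
    simp only
    rw [Real.norm_eq_abs, Real.norm_eq_abs, abs_of_nonneg (mul_nonneg (far_nonneg _ _ _)
      (by positivity))]
    exact (hle t).trans (le_abs_self _)
  refine ⟨i1, ?_⟩
  have hint : ∀ n ∈ AA T M, ∫ t in (T + 2 * Real.log T)..(2 * T - 2 * Real.log T),
      6 * (1 / (n : ℝ) ^ 2) * (SS (c / 32) T (t + n / Real.log T) * ‖dp N b t‖ ^ 2 +
        SS (c / 32) T (t + -(n / Real.log T)) * ‖dp N b t‖ ^ 2) ≤
      12 * (C₁ * T * N2 N b) * (1 / (n : ℝ) ^ 2) := by
    intro n hn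
    rw [mem_AA] at hn
    have hn2 : (n : ℝ) / Real.log T ≤ 3 := by
      rw [div_le_iff₀ hLp]
      have h2 : (n : ℝ) ≤ (⌈Real.log T⌉₊ : ℝ) + 1 := by exact_mod_cast hn.1.2
      have h3 := (Nat.ceil_lt_add_one hL0).le
      linarith
    have hn0 : 0 ≤ (n : ℝ) / Real.log T := by positivity
    rw [intervalIntegral.integral_const_mul, intervalIntegral.integral_add
      (Continuous.intervalIntegrable (by fun_prop) _ _)
      (Continuous.intervalIntegrable (by fun_prop) _ _)]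
    have s1 := shift (δ := c / 32) (T := T) (C := C₁) (N := N) hL0 h₁ b
      (x := T + 2 * Real.log T) (y := 2 * T - 2 * Real.log T) (z := n / Real.log T)
      (by linarith) (by linarith) (by linarith)
    have s2 := shift (δ := c / 32) (T := T) (C := C₁) (N := N) hL0 h₁ b
      (x := T + 2 * Real.log T) (y := 2 * T - 2 * Real.log T) (z := -(n / Real.log T))
      (by linarith) (by linarith) (by linarith)
    have h6 : (0 : ℝ) ≤ 6 * (1 / (n : ℝ) ^ 2) := by positivity
    calc _ ≤ 6 * (1 / (n : ℝ) ^ 2) * (C₁ * T * N2 N b + C₁ * T * N2 N b) :=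
          mul_le_mul_of_nonneg_left (add_le_add s1 s2) h6
      _ = _ := by ring
  have hGi : ∫ t in (T + 2 * Real.log T)..(2 * T - 2 * Real.log T), G t =
      ∑ n ∈ AA T M, ∫ t in (T + 2 * Real.log T)..(2 * T - 2 * Real.log T),
        6 * (1 / (n : ℝ) ^ 2) * (SS (c / 32) T (t + n / Real.log T) * ‖dp N b t‖ ^ 2 +
        SS (c / 32) T (t + -(n / Real.log T)) * ‖dp N b t‖ ^ 2) := by
    rw [← intervalIntegral.integral_finsetSum]
    · refine intervalIntegral.integral_congr fun t _ => ?_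
      rw [hG]
      simp only
      rw [Finset.sum_mul]
      refine Finset.sum_congr rfl fun n _ => ?_
      rw [← sub_eq_add_neg]
      ring
    · intro n _
      refine Continuous.intervalIntegrable ?_ _ _
      fun_prop
  have hN2 : 0 ≤ N2 N b := by
    unfold N2
    positivity
  calc ∫ t in (T + 2 * Real.log T)..(2 * T - 2 * Real.log T), far M T t * ‖dp N b t‖ ^ 2
      ≤ ∫ t in (T + 2 * Real.log T)..(2 * T - 2 * Real.log T), G t :=
        intervalIntegral.integral_mono_on (by linarith) i1 (hGc.intervalIntegrable _ _)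
          fun t _ => hle t
    _ ≤ ∑ n ∈ AA T M, 12 * (C₁ * T * N2 N b) * (1 / (n : ℝ) ^ 2) := by
        rw [hGi]
        exact Finset.sum_le_sum hint
    _ = 12 * (C₁ * T * N2 N b) * ∑ n ∈ AA T M, 1 / (n : ℝ) ^ 2 := by rw [Finset.mul_sum]
    _ ≤ 12 * (C₁ * T * N2 N b) * (4 / M) :=
        mul_le_mul_of_nonneg_left (sum_AA hM) (by positivity)
    _ = 48 * C₁ / M * T * N2 N b := by ring

end

end Pool.Agent.H860.MH
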